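import Pool.Agent.helper68.FY.Spec

set_option autoImplicit false

namespace Pool.Agent.helper68.FY

open Finset

theorem FNC_cs (p : ℕ) [Fact p.Prime] (χ : MulChar (ZMod p) ℂ) (B : Finset (ZMod p))
    (β : ZMod p → ℂ) (Q : ℕ) :
    S1 p χ B β Q ^ 2 ≤ (Q : ℝ) ^ 2 * S2 p χ B β Q := by
  unfold S1 S2
  have h := sq_sum_le_card_mul_sum_sq (s := Finset.Icc 1 Q ×ˢ Finset.Icc 1 Q)
    (f := fun v : ℕ × ℕ => ‖∑ b ∈ B, β b * χ ((v.1 : ZMod p) + (v.2 : ZMod p) * b)‖)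
  refine h.trans (le_of_eq ?_)
  rw [Finset.card_product, Nat.card_Icc, Nat.add_sub_cancel]
  push_cast
  ring

theorem FNC_alg (T W p X col : ℝ) (k : ℕ) (hT : 0 < T) (hW : 0 < W) (hp : 0 ≤ p)
    (hcol : 0 ≤ col) (hk : 1 ≤ k) (hpW : p ≤ W ^ k)
    (h : X ^ (2 * k) ≤ T ^ (2 * k - 2) * col *
      ((k : ℝ) ^ (2 * k) * W ^ k * p ^ 2 + W ^ (2 * k) * (2 * k * Real.sqrt p) ^ 2)) :
    (X / (T * W)) ^ (2 * k) ≤ col * ((k : ℝ) ^ (2 * k) + 4 * (k : ℝ) ^ 2) * p / T ^ 2 := by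
  have hT2 : T ^ (2 * k) = T ^ (2 * k - 2) * T ^ 2 := by
    rw [← pow_add]
    congr 1
    omega
  have hsq : (2 * (k : ℝ) * Real.sqrt p) ^ 2 = 4 * (k : ℝ) ^ 2 * p := by
    rw [mul_pow, Real.sq_sqrt hp]
    ring
  have hW2 : W ^ (2 * k) = W ^ k * W ^ k := by
    rw [← pow_add]
    congr 1
    omega
  have hWk : 0 < W ^ k := pow_pos hW k
  have h1 : (k : ℝ) ^ (2 * k) * W ^ k * p ^ 2 ≤ (k : ℝ) ^ (2 * k) * p * W ^ (2 * k) := by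
    have h2 : W ^ k * p * p ≤ W ^ k * p * W ^ k :=
      mul_le_mul_of_nonneg_left hpW (mul_nonneg hWk.le hp)
    calc (k : ℝ) ^ (2 * k) * W ^ k * p ^ 2 = (k : ℝ) ^ (2 * k) * (W ^ k * p * p) := by ring
      _ ≤ (k : ℝ) ^ (2 * k) * (W ^ k * p * W ^ k) :=
        mul_le_mul_of_nonneg_left h2 (by positivity)
      _ = (k : ℝ) ^ (2 * k) * p * W ^ (2 * k) := by
        rw [hW2]
        ring
  rw [div_pow, mul_pow, div_le_div_iff₀ (by positivity) (by positivity)]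
  have h3 : X ^ (2 * k) ≤ T ^ (2 * k - 2) * col *
      (((k : ℝ) ^ (2 * k) + 4 * (k : ℝ) ^ 2) * p * W ^ (2 * k)) := by
    refine h.trans ?_
    refine mul_le_mul_of_nonneg_left ?_ (by positivity)
    rw [hsq]
    nlinarith
  calc X ^ (2 * k) * T ^ 2 ≤ T ^ (2 * k - 2) * col *
      (((k : ℝ) ^ (2 * k) + 4 * (k : ℝ) ^ 2) * p * W ^ (2 * k)) * T ^ 2 :=
        mul_le_mul_of_nonneg_right h3 (by positivity)
    _ = col * ((k : ℝ) ^ (2 * k) + 4 * (k : ℝ) ^ 2) * p * (T ^ (2 * k) * W ^ (2 * k)) := by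
        rw [hT2]
        ring

theorem FNC (hC : COL_stmt) (hA : BUA_stmt) (hBu : BUB_stmt) : FNC_stmt := by
  intro p _ χ hχ B β hβ Q L W k D s hL hW hk hLW hQL hpW hB hD hs
  have hQ1 : 1 ≤ Q := (Nat.mul_pos hL hW).trans_le hLW
  have hLQ : L ≤ Q := (Nat.le_mul_of_pos_right L hW).trans hLW
  have hWQ : W ≤ Q := (Nat.le_mul_of_pos_left W hL).trans hLW
  have hQp : Q < p := by nlinarith
  have hWp : W < p := by omega
  have ha := hA p χ hχ B β hβ Q L W hL hW hLW hQp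
  have hb := hBu p χ hχ B Q L W k hL hLQ hW hk hWp
  have hc := hC p Q L D B s hL hLQ hQL hD hs
  have hX0 : 0 ≤ XX p χ B Q L W := by
    unfold XX
    refine Finset.sum_nonneg fun i _ => ?_
    unfold RR
    exact norm_nonneg _
  have hcs := FNC_cs p χ B β Q
  generalize XX p χ B Q L W = X at *
  generalize S2 p χ B β Q = S at *
  have hcol0 : (0 : ℝ) ≤ (col p Q L B : ℝ) := Nat.cast_nonneg _
  generalize (col p Q L B : ℝ) = c at *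
  obtain ⟨e, he⟩ : ∃ e : ℝ, e = 1 + Nat.log 2 (2 * Q * L) := ⟨_, rfl⟩
  rw [← he] at hc ⊢
  have hq : (1 : ℝ) ≤ Q := by exact_mod_cast hQ1
  have hl : (1 : ℝ) ≤ L := by exact_mod_cast hL
  have hw : (1 : ℝ) ≤ W := by exact_mod_cast hW
  have hm : (1 : ℝ) ≤ B.card := by exact_mod_cast hB
  have hp0 : (0 : ℝ) ≤ p := Nat.cast_nonneg _
  have hpWR : (p : ℝ) ≤ (W : ℝ) ^ k := by exact_mod_cast hpW
  generalize (Q : ℝ) = q at *
  generalize (L : ℝ) = l at *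
  generalize (W : ℝ) = w at *
  generalize (B.card : ℝ) = m at *
  generalize (p : ℝ) = P at *
  have hq0 : 0 < q := by linarith
  have hl0 : 0 < l := by linarith
  have hw0 : 0 < w := by linarith
  have hm0 : 0 < m := by linarith
  have hT : 0 < 81 * q ^ 2 * l ^ 2 * m ^ 2 := by positivity
  have h1 := FNC_alg (81 * q ^ 2 * l ^ 2 * m ^ 2) w P X c k hT hw0 hp0 hcol0 hk hpWR hb
  have hDse : 0 ≤ (D : ℝ) ^ 2 * s * e := by
    have h2 : 0 ≤ 6144 * (D : ℝ) ^ 2 * q ^ 3 * l * s * e := hcol0.trans hc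
    have h3 : 6144 * (D : ℝ) ^ 2 * q ^ 3 * l * s * e = (D : ℝ) ^ 2 * s * e * (6144 * q ^ 3 * l) := by
      ring
    rw [h3] at h2
    exact nonneg_of_mul_nonneg_left h2 (by positivity)
  obtain ⟨Y, hY⟩ : ∃ Y : ℝ, Y = ((k : ℝ) ^ (2 * k) + 4 * (k : ℝ) ^ 2) * (D : ℝ) ^ 2 * e * s * P /
      (q * l ^ 3 * m ^ 4) := ⟨_, rfl⟩
  have h4 : (X / (81 * q ^ 2 * l ^ 2 * m ^ 2 * w)) ^ (2 * k) ≤ Y := by
    refine h1.trans ?_
    rw [hY, div_le_div_iff₀ (by positivity) (by positivity)]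
    have h5 : c * (q * l ^ 3 * m ^ 4) ≤ (D : ℝ) ^ 2 * s * e * (81 * q ^ 2 * l ^ 2 * m ^ 2) ^ 2 := by
      calc c * (q * l ^ 3 * m ^ 4) ≤ 6144 * (D : ℝ) ^ 2 * q ^ 3 * l * s * e * (q * l ^ 3 * m ^ 4) :=
            mul_le_mul_of_nonneg_right hc (by positivity)
        _ = (D : ℝ) ^ 2 * s * e * (6144 * (q ^ 4 * l ^ 4 * m ^ 4)) := by ring
        _ ≤ (D : ℝ) ^ 2 * s * e * (6561 * (q ^ 4 * l ^ 4 * m ^ 4)) := by
            refine mul_le_mul_of_nonneg_left ?_ hDse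
            have : 0 < q ^ 4 * l ^ 4 * m ^ 4 := by positivity
            linarith
        _ = (D : ℝ) ^ 2 * s * e * (81 * q ^ 2 * l ^ 2 * m ^ 2) ^ 2 := by ring
    calc c * ((k : ℝ) ^ (2 * k) + 4 * (k : ℝ) ^ 2) * P * (q * l ^ 3 * m ^ 4)
        = ((k : ℝ) ^ (2 * k) + 4 * (k : ℝ) ^ 2) * P * (c * (q * l ^ 3 * m ^ 4)) := by ring
      _ ≤ ((k : ℝ) ^ (2 * k) + 4 * (k : ℝ) ^ 2) * P *
          ((D : ℝ) ^ 2 * s * e * (81 * q ^ 2 * l ^ 2 * m ^ 2) ^ 2) :=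
          mul_le_mul_of_nonneg_left h5 (by positivity)
      _ = ((k : ℝ) ^ (2 * k) + 4 * (k : ℝ) ^ 2) * (D : ℝ) ^ 2 * e * s * P *
          (81 * q ^ 2 * l ^ 2 * m ^ 2) ^ 2 := by ring
  rw [← hY]
  have h6 : X / (81 * q ^ 2 * l ^ 2 * m ^ 2 * w) ≤ Y ^ (1 / (2 * (k : ℝ))) := by
    have h7 : 0 ≤ X / (81 * q ^ 2 * l ^ 2 * m ^ 2 * w) := by positivity
    have h8 : (1 / (2 * (k : ℝ))) = (((2 * k : ℕ) : ℝ))⁻¹ := by
      push_cast
      rw [one_div]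
    rw [h8]
    have h9 := Real.pow_rpow_inv_natCast h7 (show 2 * k ≠ 0 by omega)
    calc X / (81 * q ^ 2 * l ^ 2 * m ^ 2 * w)
        = ((X / (81 * q ^ 2 * l ^ 2 * m ^ 2 * w)) ^ (2 * k)) ^ ((((2 * k : ℕ) : ℝ))⁻¹) := h9.symm
      _ ≤ Y ^ ((((2 * k : ℕ) : ℝ))⁻¹) :=
        Real.rpow_le_rpow (by positivity) h4 (by positivity)
  generalize Y ^ (1 / (2 * (k : ℝ))) = y at h6 ⊢
  have h10 : S ≤ 9 * q ^ 2 * (m + 4 * m ^ 2 / l) + X / (l ^ 2 * w) := by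
    have h11 : S ≤ (w * (9 * q ^ 2) * (l ^ 2 * m + 4 * l * m ^ 2) + X) / (l ^ 2 * w) := by
      rw [le_div_iff₀ (by positivity)]
      linarith
    refine h11.trans (le_of_eq ?_)
    field_simp
  have h12 : X / (l ^ 2 * w) ≤ 81 * q ^ 2 * m ^ 2 * y := by
    have h13 : X / (l ^ 2 * w) = 81 * q ^ 2 * m ^ 2 * (X / (81 * q ^ 2 * l ^ 2 * m ^ 2 * w)) := by
      field_simp
    rw [h13]
    exact mul_le_mul_of_nonneg_left h6 (by positivity)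
  calc S1 p χ B β Q ^ 2 ≤ q ^ 2 * S := hcs
    _ ≤ q ^ 2 * (9 * q ^ 2 * (m + 4 * m ^ 2 / l) + 81 * q ^ 2 * m ^ 2 * y) := by
        refine mul_le_mul_of_nonneg_left ?_ (by positivity)
        linarith
    _ = 9 * q ^ 4 * (m + 4 * m ^ 2 / l) + 81 * q ^ 4 * m ^ 2 * y := by ring

end Pool.Agent.helper68.FY
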